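import Pool.Agent.Helper6.CS.Goals1

/-!
# Packet CS-NP (MP_81e84b_lc)
-/

namespace Pool.Agent.Helper8.CS

open Pool.Agent.Helper6.CS

set_option synthInstance.maxSize 1000000000

variable {M : Type} [World M]

/-- `k` codes a pair whose second component is a word over `b` of length at most `m`. -/
def Pk (b m k : M) (β : Wd M) : Prop :=
  ∃ s : Wd M, k = pr (Cod.cd s) (Cod.cd β) ∧ Over b β ∧ β.len ≤ m

instance (b m : M) : IP M fun p : M × Wd M => Pk b m p.1 p.2 := by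
  unfold Pk
  infer_instance

/-- The specification of the tail number `k`. -/
def Pt (b m h k : M) (w : Wd M) : Prop :=
  (∃ β : Wd M, Pk b m k β ∧ w = apw h β) ∨ (¬ (∃ β : Wd M, Pk b m k β) ∧ w = Wd.nil M)

instance (b m h : M) : IP M fun p : M × Wd M => Pt b m h p.1 p.2 := by
  unfold Pt
  infer_instance

theorem Pk.uniq {b m k : M} {β β' : Wd M} (h : Pk b m k β) (h' : Pk b m k β') : β = β' := by
  obtain ⟨s, hs, -, -⟩ := h
  obtain ⟨s', hs', -, -⟩ := h'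
  rw [hs] at hs'
  exact Cod.inj (pr_inj hs').2

theorem Pt.ex (b m h k : M) : ∃ w : Wd M, Pt b m h k w := by
  by_cases hk : ∃ β : Wd M, Pk b m k β
  · obtain ⟨β, hβ⟩ := hk
    exact ⟨apw h β, Or.inl ⟨β, hβ, rfl⟩⟩
  · exact ⟨Wd.nil M, Or.inr ⟨hk, rfl⟩⟩

/-- The set for the number `k`. -/
def Ek (b : M) (D : Wd M → Prop) (k : M) (y : Wd M) : Prop :=
  ∃ s β : Wd M, k = pr (Cod.cd s) (Cod.cd β) ∧ Over b s ∧ D s ∧ Ext b D s y

instance (b : M) (D : Wd M → Prop) [IP M D] : IP M fun p : M × Wd M => Ek b D p.1 p.2 := by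
  unfold Ek
  infer_instance

theorem Ek.not_ps {b : M} {D : Wd M → Prop}
    (hD : ∀ s, Over b s → D s → ¬ PS (b + 1) (Ext b D s)) (k : M) : ¬ PS (b + 1) (Ek b D k) := by
  rintro ⟨p, hp⟩
  obtain ⟨y, -, h1⟩ := hp 0
  obtain ⟨t, -, -, s, β, hk, hs, hDs, -⟩ := h1 (Wd.nil M) (Over.nil _) (by simp)
  refine hD s hs hDs ⟨p, fun q ↦ ?_⟩
  obtain ⟨y', hy', h2⟩ := hp q
  refine ⟨y', hy', fun g hg hgl ↦ ?_⟩
  obtain ⟨t', ht', htl', s', β', hk', -, -, hE⟩ := h2 g hg hgl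
  rw [hk] at hk'
  have e : s = s' := Cod.inj (pr_inj hk').1
  rw [← e] at hE
  exact ⟨t', ht', htl', hE⟩

theorem t_NP (hL : G_L2) (hB : G_BND) : G_NP := by
  intro M _ b D iD hD Λ m p
  obtain ⟨K1, hK1⟩ := hB M b Λ
  obtain ⟨K2, hK2⟩ := hB M b m
  have hEi : IP M (fun p : M × Wd M => Ek b D p.1 p.2) := inferInstance
  obtain ⟨q, hq⟩ := hL M (b + 1) (Ek b D) hEi (Ek.not_ps hD) (pr (K1 + K2) (K1 + K2)) p
  refine ⟨q, fun h hh ↦ ?_⟩
  have hPi : IP M (fun p : M × Wd M => Pt b m h p.1 p.2) := inferInstance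
  have hGi : IFn M fun k : M => (Cod.cd (pick M (Pt b m h k)) : M) := inferInstance
  obtain ⟨e, he⟩ := ev_exists (fun k : M => (Cod.cd (pick M (Pt b m h k)) : M))
    (pr (K1 + K2) (K1 + K2))
  have hsp : ∀ k : M, Pt b m h k (pick M (Pt b m h k)) := by
    intro k
    have : IP M (Pt b m h k) := IP.part (g := Pt b m h) k
    exact pick_spec (Pt.ex b m h k)
  have hdec : ∀ k, k < pr (K1 + K2) (K1 + K2) → dec (ev e k) = pick M (Pt b m h k) := by
    intro k hk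
    rw [he k hk, dec_cd]
  obtain ⟨g, hg, hgl, hgE⟩ := hq e (fun k hk ↦ by
    rw [hdec k hk]
    rcases hsp k with ⟨β, ⟨s, -, hβ, hβl⟩, hw⟩ | ⟨-, hw⟩
    · rw [hw]
      exact (hh β hβ hβl).mono (le_add_of_nonneg_right zero_le_one)
    · rw [hw]
      exact Over.nil _)
  refine ⟨g, hg, hgl, fun s β t hs hDs hsl hβ hβl ht htl hE ↦ ?_⟩
  have z1 := World.zero_le' K1
  have z2 := World.zero_le' K2
  have hk : pr (Cod.cd s) (Cod.cd β) < pr (K1 + K2) (K1 + K2) := by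
    refine pr_lt ?_
    refine add_lt_add (lt_of_lt_of_le (hK1 s hs hsl) (le_add_of_nonneg_right z2))
      (lt_of_lt_of_le (hK2 β hβ hβl) (le_add_of_nonneg_left z1))
  have hPk : Pk b m (pr (Cod.cd s) (Cod.cd β)) β := ⟨s, rfl, hβ, hβl⟩
  have hpick : pick M (Pt b m h (pr (Cod.cd s) (Cod.cd β))) = apw h β := by
    rcases hsp (pr (Cod.cd s) (Cod.cd β)) with ⟨β', hβ', hw⟩ | ⟨hn, -⟩
    · rw [hw, hPk.uniq hβ']
    · exact absurd ⟨β, hPk⟩ hn
  refine hgE _ hk t ht htl ⟨s, β, rfl, hs, hDs, ?_⟩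
  rw [hdec _ hk, hpick]
  exact hE

end Pool.Agent.Helper8.CS
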