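import Pool.Agent.Helper6.CS.Goals2

/-!
# Packet CS-OWL (MP_81e84b_lc)
-/

namespace Pool.Agent.Helper8.CS

open Pool.Agent.Helper6.CS

set_option synthInstance.maxSize 1000000000 in
theorem t_OWL : G_OWL := by
  intro M _ a W hW hOW
  have hP : ∀ i : M, IP M fun p : M => W p = a + i := fun i => inferInstance
  have h1 : ∀ i, W (fo a W i) = a + i := fun i => lst_spec (hP := hP i) (hOW.1 i)
  have h4 : ∀ i p, W p = a + i → fo a W i ≤ p := fun i p h => lst_le (hP := hP i) h
  have h2 : ∀ i m p : M, W p = a + (i + m) → fo a W i ≤ p := by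
    intro i
    refine ind (P := fun m : M => ∀ p : M, W p = a + (i + m) → fo a W i ≤ p) inferInstance ?_ ?_
    · intro p h
      rw [add_zero] at h
      exact h4 i p h
    · intro m ih p h
      obtain ⟨q, hq, hqe⟩ := hOW.2 (i + m) p (by rw [h, add_assoc])
      exact (ih q hqe).trans hq.le
  have h3 : ∀ i p, p < fo a W i → W p < a + i := by
    intro i p hp
    by_contra hc
    push Not at hc
    obtain ⟨c, hc'⟩ := World.exists_add _ _ hc
    exact absurd (h2 i c p (by rw [hc', add_assoc])) (not_le.mpr hp)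
  refine ⟨h1, h3, fun i i' hi => ?_, h4⟩
  refine lt_of_le_of_ne ?_ ?_
  · by_contra hc
    push Not at hc
    have h5 := h3 i _ hc
    rw [h1 i'] at h5
    exact absurd (lt_of_add_lt_add_left h5) (not_lt.mpr hi.le)
  · intro he
    have h5 := h1 i'
    rw [← he, h1 i] at h5
    exact absurd (add_left_cancel h5) hi.ne

end Pool.Agent.Helper8.CS
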