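import Pool.Agent.Helper65.CS.Goals2

namespace Pool.Agent.Helper8.CS

open Pool.Agent.Helper65.CS

theorem bern (q : ℕ) : 2 * q ^ (q + 1) ≤ (q + 1) ^ (q + 1) := by
  rcases Nat.eq_zero_or_pos q with h | h
  · subst h; simp
  · have hq : (0 : ℝ) < q := by exact_mod_cast h
    have h1 := one_add_mul_le_pow (a := 1 / (q : ℝ)) (by have : 0 < 1 / (q : ℝ) := by positivity
                                                         linarith) (q + 1)
    have h2 : (2 : ℝ) ≤ 1 + ((q + 1 : ℕ) : ℝ) * (1 / (q : ℝ)) := by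
      push_cast
      have : ((q : ℝ) + 1) * (1 / q) = 1 + 1 / q := by field_simp
      rw [this]
      have : 0 < 1 / (q : ℝ) := by positivity
      linarith
    have h3 : (1 + 1 / (q : ℝ)) ^ (q + 1) * (q : ℝ) ^ (q + 1) = ((q : ℝ) + 1) ^ (q + 1) := by
      rw [← mul_pow]
      congr 1
      field_simp
    have h4 : (2 : ℝ) * (q : ℝ) ^ (q + 1) ≤ ((q : ℝ) + 1) ^ (q + 1) := by
      rw [← h3]
      exact mul_le_mul_of_nonneg_right (h2.trans h1) (by positivity)
    exact_mod_cast h4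

theorem itr : ItrStmt := by
  intro a Q L hQ _ h h0
  obtain ⟨q, rfl⟩ : ∃ q, Q = q + 1 := ⟨Q - 1, by omega⟩
  have h1 : ∀ s, a (s + 1) * (q + 1) ≤ a s * q := by
    intro s
    have := h s
    have e : a s * (q + 1) = a s * q + a s := by ring
    omega
  have h2 : ∀ s j, a (s + j) * (q + 1) ^ j ≤ a s * q ^ j := by
    intro s j
    induction j with
    | zero => simp
    | succ j ih =>
      calc a (s + (j + 1)) * (q + 1) ^ (j + 1) = (a (s + j + 1) * (q + 1)) * (q + 1) ^ j := by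
            rw [← add_assoc]; ring
        _ ≤ (a (s + j) * q) * (q + 1) ^ j := Nat.mul_le_mul_right _ (h1 _)
        _ = (a (s + j) * (q + 1) ^ j) * q := by ring
        _ ≤ (a s * q ^ j) * q := Nat.mul_le_mul_right _ ih
        _ = a s * q ^ (j + 1) := by ring
  have h3 : ∀ s, 2 * a (s + (q + 1)) ≤ a s := by
    intro s
    have h4 := h2 s (q + 1)
    have h5 : 2 * a (s + (q + 1)) * (q + 1) ^ (q + 1) ≤ a s * (q + 1) ^ (q + 1) := by
      calc 2 * a (s + (q + 1)) * (q + 1) ^ (q + 1) = 2 * (a (s + (q + 1)) * (q + 1) ^ (q + 1)) := by ring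
        _ ≤ 2 * (a s * q ^ (q + 1)) := Nat.mul_le_mul_left _ h4
        _ = a s * (2 * q ^ (q + 1)) := by ring
        _ ≤ a s * (q + 1) ^ (q + 1) := Nat.mul_le_mul_left _ (bern q)
    exact Nat.le_of_mul_le_mul_right h5 (by positivity)
  have h4 : ∀ j, 2 ^ j * a ((q + 1) * j) ≤ a 0 := by
    intro j
    induction j with
    | zero => simp
    | succ j ih =>
      calc 2 ^ (j + 1) * a ((q + 1) * (j + 1)) = 2 ^ j * (2 * a ((q + 1) * j + (q + 1))) := by
            rw [mul_add, mul_one]; ring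
        _ ≤ 2 ^ j * a ((q + 1) * j) := Nat.mul_le_mul_left _ (h3 _)
        _ ≤ a 0 := ih
  have h5 := (h4 L).trans_lt h0
  by_contra hne
  have : 2 ^ L * 1 ≤ 2 ^ L * a ((q + 1) * L) := Nat.mul_le_mul_left _ (Nat.one_le_iff_ne_zero.mpr hne)
  omega

end Pool.Agent.Helper8.CS
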